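import Pool.Agent.MWH.StmtsC

namespace Pool.Agent.MWH.H9

open Pool.Agent.Helper14_MV Pool.Agent.Helper2_MV Pool.Agent.MVO Pool.Agent.MWL Pool.Agent.MWS
open Pool.Agent.MWH

/-- the merging map of V10 -/
def g10 (i p : ℕ) : ℕ → ℕ := fun j => if j < i then 0 else if j = i then 1 else if j < p then 2 else 3

/-- the inserting map -/
def f4 (x y z w : ℕ) : ℕ → ℕ := fun j => if j = 0 then x else if j = 1 then y else if j = 2 then z else w

theorem vd10 : Vd 3 (vc [0, 1, 0, 1]) (vc [1, 1, 2, 0]) 1 := by
  refine ⟨by norm_num, by simp [vc], by simp [vc], ?_, ?_, ?_⟩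
  · intro j hj hj1
    interval_cases j <;> simp [vc] at hj1 ⊢
  · simp [deg, vc, Finset.sum_range_succ]
  · simp [deg, vc, Finset.sum_range_succ]

theorem v10 (h1 : Ps0Stmt) (h2 : PinStmt) : V10Stmt := by
  rintro β θ hβ hle k a b i p hv hl hb1 ⟨q, hqi, hq1, hq0⟩ ⟨m, him, hmp, hm2⟩ hbz
  have hap : a p = 1 := hl.av
  have hai : a i = 1 := hl.au
  have hip : i < p := hl.uv
  have hpk : p ≤ k := hl.vk
  have hbp : b p = 0 := by
    rcases hv.un p hpk (by omega) with h | h
    · omega
    · exact h
  have ham : a m = 0 := hl.az m (by omega) (by omega) (by omega)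
  have haq : a q = 0 := hl.az q (by omega) (by omega) (by omega)
  constructor
  · intro h
    have h3 := h1 β θ hβ hle k 3 (g10 i p) a b (vc [0, 1, 0, 1]) (vc [1, 1, 2, 0]) i
      ⟨fun x y hxy _ => by unfold g10; split_ifs <;> omega,
        fun x _ => by unfold g10; split_ifs <;> omega⟩ hv
      (by rw [show g10 i p i = 1 by simp [g10]]; exact vd10) ?_ ?_ ?_ ?_ ?_ Stt.xy Stt.yx
      (fun e => by cases e) (fun e => by cases e) h
    · rw [show g10 i p i = 1 by simp [g10]] at h3
      exact h3
    · intro j' hj'
      interval_cases j'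
      · refine Or.inr (Or.inr fun j hj hg => ?_)
        have : j < i := by
          unfold g10 at hg
          split_ifs at hg <;> omega
        exact hl.az j hj (by omega) (by omega)
      · refine Or.inr (Or.inl ⟨by simp [vc], i, by omega, fun j hj hg hne => ?_⟩)
        unfold g10 at hg
        split_ifs at hg <;> omega
      · refine Or.inr (Or.inr fun j hj hg => ?_)
        have : i < j ∧ j < p := by
          unfold g10 at hg
          split_ifs at hg <;> omega
        exact hl.az j hj (by omega) (by omega)
      · refine Or.inr (Or.inl ⟨by simp [vc], p, by omega, fun j hj hg hne => ?_⟩)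
        have : p ≤ j := by
          unfold g10 at hg
          split_ifs at hg <;> omega
        exact hl.az j hj (by omega) (by omega)
    · intro j' hj'
      interval_cases j'
      · refine Or.inr (Or.inl ⟨by simp [vc], q, by omega, fun j hj hg hne => ?_⟩)
        have : j < i := by
          unfold g10 at hg
          split_ifs at hg <;> omega
        exact hq0 j this hne
      · refine Or.inr (Or.inl ⟨by simp [vc], i, by omega, fun j hj hg hne => ?_⟩)
        unfold g10 at hg
        split_ifs at hg <;> omega
      · exact Or.inl (by simp [vc])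
      · refine Or.inr (Or.inr fun j hj hg => ?_)
        have : p ≤ j := by
          unfold g10 at hg
          split_ifs at hg <;> omega
        rcases this.eq_or_lt with h | h
        · rw [← h]
          exact hbp
        · exact hbz j h hj
    · intro j hj hg hne
      exfalso
      rw [show g10 i p i = 1 by simp [g10]] at hg
      unfold g10 at hg
      split_ifs at hg <;> omega
    · rw [show g10 i p i = 1 by simp [g10]]
      simp [vc, hai]
    · rw [show g10 i p i = 1 by simp [g10]]
      simp [vc, hb1]
  · intro h
    refine h2 β θ hβ hle 3 k (f4 q i m p) (vc [0, 1, 0, 1]) (vc [1, 1, 2, 0]) a b 1 ?_ ?_ vd10 ?_ ?_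
      ?_ ?_ Stt.xy Stt.yx (fun e => by cases e) (fun e => by cases e) h
    · intro j hj
      interval_cases j <;> simp [f4] <;> omega
    · simpa [f4] using hpk
    · simpa [f4] using hv
    · intro j hj
      interval_cases j <;> simp [f4, vc] <;> omega
    · simp [f4, vc, hai]
    · simp [f4, vc, hb1]

end Pool.Agent.MWH.H9
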